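import Pool.Agent.H375R3.OG.Last

set_option autoImplicit false
open scoped Pointwise

namespace Pool.Agent.Results.MP_86f7a7_co.PolynomialDensity

/-- Polynomial density. If `|A+A| ≤ K|A|` in a torsion-free abelian group, then for every integer
`s ≥ 1` the set `A` is covered by `(2K)^(40000 s)` translates of a progression `P` of rank at most
`(400000 s log(2K))^2` with at most `exp(50000000 s^2 (log 2K)^(1+1/s)) |A|` terms; in particular
some translate of `P` contains at least `(2K)^(-40000 s) |A|` elements of `A`. -/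
theorem result {Z : Type*} [AddCommGroup Z] [DecidableEq Z]
    (htf : ∀ (n : ℕ) (x : Z), n ≠ 0 → n • x = 0 → x = 0) (K : ℝ) (A : Finset Z)
    (hA : A.Nonempty) (hK : ((A + A).card : ℝ) ≤ K * (A.card : ℝ)) (s : ℕ) (hs : 1 ≤ s) :
    ∃ (d : ℕ) (v : Fin d → Z) (N : Fin d → ℕ) (T : Finset Z),
      (d : ℝ) ≤ (400000 * s * Real.log (2 * K)) ^ 2 ∧ (∀ i, 1 ≤ N i) ∧
      ((∏ i, N i : ℕ) : ℝ) ≤
        Real.exp (50000000 * (s : ℝ) ^ 2 * Real.log (2 * K) ^ (1 + 1 / (s : ℝ))) * A.card ∧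
      (T.card : ℝ) ≤ (2 * K) ^ (40000 * s) ∧
      (∀ a ∈ A, ∃ t ∈ T, ∃ n : Fin d → ℕ, (∀ i, n i < N i) ∧ a = t + ∑ i, n i • v i) ∧
      ∃ t ∈ T, (A.card : ℝ) ≤ (2 * K) ^ (40000 * s) *
        ({a | a ∈ A ∧ ∃ n : Fin d → ℕ, (∀ i, n i < N i) ∧ a = t + ∑ i, n i • v i}.ncard : ℝ) := by
  classical
  obtain ⟨d, v, N, T, hd, hN, hvol, hT, hcov⟩ := H375.OG.last htf hA hK hs
  have hApos : (0 : ℝ) < A.card := by exact_mod_cast hA.card_pos
  have hK1 : 1 ≤ K := by
    have h1 : (A.card : ℝ) ≤ (A + A).card := by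
      exact_mod_cast Finset.card_le_card_add_right hA
    nlinarith
  have hlog : 0 < Real.log (2 * K) := Real.log_pos (by linarith)
  refine ⟨d, v, N, T, hd, hN, ?_, hT, hcov, ?_⟩
  · rw [Real.rpow_add hlog, Real.rpow_one]
    exact hvol
  · obtain ⟨t, ht, hp⟩ := H375.Main.pigeon A T
      (fun t a => ∃ n : Fin d → ℕ, (∀ i, n i < N i) ∧ a = t + ∑ i, n i • v i) hA hcov
    refine ⟨t, ht, ?_⟩
    have h2 : ({a | a ∈ A ∧ ∃ n : Fin d → ℕ, (∀ i, n i < N i) ∧ a = t + ∑ i, n i • v i}.ncard) =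
        (A.filter (fun a => ∃ n : Fin d → ℕ, (∀ i, n i < N i) ∧ a = t + ∑ i, n i • v i)).card := by
      rw [← Set.ncard_coe_finset]
      congr 1
      ext a
      simp
    rw [h2]
    calc (A.card : ℝ) ≤ T.card * (A.filter (fun a => ∃ n : Fin d → ℕ, (∀ i, n i < N i) ∧
          a = t + ∑ i, n i • v i)).card := by exact_mod_cast hp
      _ ≤ _ := mul_le_mul_of_nonneg_right hT (Nat.cast_nonneg _)

end Pool.Agent.Results.MP_86f7a7_co.PolynomialDensity
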